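import Mathlib

set_option autoImplicit false

/-!
# Cohomology modules of objects of the derived category, the slices
-/

open CategoryTheory Limits DerivedCategory Pretriangulated

namespace Pool.Agent.Q322.LX

attribute [local instance] HasDerivedCategory.standard

variable (R : Type) [CommRing R]

/-- The derived category of `R`-modules. -/
abbrev D := DerivedCategory (ModuleCat.{0} R)

variable {R}

/-- the cohomology functors -/
noncomputable abbrev H (n : ℤ) : D R ⥤ ModuleCat.{0} R := homologyFunctor (ModuleCat.{0} R) n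

/-- isomorphic objects have isomorphic cohomology -/
noncomputable def Hiso {X Y : D R} (e : X ≅ Y) (n : ℤ) : (H n).obj X ≃ₗ[R] (H n).obj Y :=
  ((H n).mapIso e).toLinearEquiv

theorem Hshift (X : D R) (a n m : ℤ) (h : a + n = m) :
    Nonempty ((H n).obj (X⟦a⟧) ≃ₗ[R] (H m).obj X) :=
  ⟨(((homologyFunctor (ModuleCat.{0} R) 0).shiftIso a n m h).app X).toLinearEquiv⟩

section

variable (T : Triangle (D R)) (hT : T ∈ distTriang (D R))

include hT

theorem exact_mid (n : ℤ) :
    Function.Exact ((H n).map T.mor₁).hom ((H n).map T.mor₂).hom := by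
  have := HomologySequence.exact₂ T hT n
  rw [ShortComplex.ShortExact.moduleCat_exact_iff_function_exact] at this
  exact this

theorem exact_right (n m : ℤ) (h : n + 1 = m) :
    Function.Exact ((H n).map T.mor₂).hom (HomologySequence.δ T n m h).hom := by
  have := HomologySequence.exact₃ T hT n m h
  rw [ShortComplex.ShortExact.moduleCat_exact_iff_function_exact] at this
  exact this

theorem exact_left (n m : ℤ) (h : n + 1 = m) :
    Function.Exact (HomologySequence.δ T n m h).hom ((H m).map T.mor₁).hom := by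
  have := HomologySequence.exact₁ T hT n m h
  rw [ShortComplex.ShortExact.moduleCat_exact_iff_function_exact] at this
  exact this

end

/-! ### Classes of modules -/

/-- torsion modules -/
def Tors (M : ModuleCat.{0} R) : Prop := ∀ x : M, ∃ a : R, a ≠ 0 ∧ a • x = 0

/-- torsion-free modules -/
def TF (M : ModuleCat.{0} R) : Prop := ∀ (a : R) (x : M), a • x = 0 → a = 0 ∨ x = 0

/-- modules of finite rank -/
def FR (M : ModuleCat.{0} R) : Prop := Module.rank R M < Cardinal.aleph0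

/-- the class of modules for the phase `φ` in degree `n` -/
structure Cls (φ : ℝ) (n : ℤ) (M : ModuleCat.{0} R) : Prop where
  tors : φ = 1 - n → Tors M
  tf : φ = 1 / 2 - n → TF M
  zero : φ ≠ 1 - n → φ ≠ 1 / 2 - n → Subsingleton M

theorem Tors.congr {M N : ModuleCat.{0} R} (e : M ≃ₗ[R] N) (h : Tors M) : Tors N := by
  intro x
  obtain ⟨a, ha, h1⟩ := h (e.symm x)
  refine ⟨a, ha, e.symm.injective ?_⟩
  rw [map_smul, h1, map_zero]

theorem TF.congr {M N : ModuleCat.{0} R} (e : M ≃ₗ[R] N) (h : TF M) : TF N := by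
  intro a x hx
  have h1 : a • e.symm x = 0 := by rw [← map_smul, hx, map_zero]
  rcases h a _ h1 with h2 | h2
  · exact Or.inl h2
  · exact Or.inr (e.symm.map_eq_zero_iff.1 h2)

theorem FR.congr {M N : ModuleCat.{0} R} (e : M ≃ₗ[R] N) (h : FR M) : FR N := by
  unfold FR at h ⊢
  rwa [← e.rank_eq]

theorem Cls.congr {φ : ℝ} {n : ℤ} {M N : ModuleCat.{0} R} (e : M ≃ₗ[R] N) (h : Cls φ n M) :
    Cls φ n N :=
  ⟨fun h1 => (h.tors h1).congr e, fun h1 => (h.tf h1).congr e,
    fun h1 h2 => by have := h.zero h1 h2; exact e.symm.toEquiv.subsingleton⟩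

theorem Cls.shift {φ : ℝ} {n : ℤ} {M : ModuleCat.{0} R} :
    Cls (φ + 1) n M ↔ Cls φ (n + 1) M := by
  have e1 : (φ + 1 = 1 - (n : ℝ)) ↔ (φ = 1 - ((n + 1 : ℤ) : ℝ)) := by
    push_cast; constructor <;> intro h <;> linarith
  have e2 : (φ + 1 = 1 / 2 - (n : ℝ)) ↔ (φ = 1 / 2 - ((n + 1 : ℤ) : ℝ)) := by
    push_cast; constructor <;> intro h <;> linarith
  constructor
  · intro h
    exact ⟨fun h1 => h.tors (e1.2 h1), fun h1 => h.tf (e2.2 h1),
      fun h1 h2 => h.zero (fun h3 => h1 (e1.1 h3)) (fun h3 => h2 (e2.1 h3))⟩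
  · intro h
    exact ⟨fun h1 => h.tors (e1.1 h1), fun h1 => h.tf (e2.1 h1),
      fun h1 h2 => h.zero (fun h3 => h1 (e1.2 h3)) (fun h3 => h2 (e2.2 h3))⟩

/-- the slices in the derived category -/
def PD (φ : ℝ) : ObjectProperty (D R) := fun X => ∀ n, Cls φ n ((H n).obj X)

theorem PD_iso {φ : ℝ} {X Y : D R} (e : X ≅ Y) (h : PD φ X) : PD φ Y :=
  fun n => (h n).congr (Hiso e n)

theorem PD_shift (φ : ℝ) (X : D R) : PD φ X ↔ PD (φ + 1) (X⟦(1 : ℤ)⟧) := by
  constructor
  · intro h n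
    obtain ⟨e⟩ := Hshift X 1 n (n + 1) (by ring)
    exact Cls.shift.2 ((h (n + 1)).congr e.symm)
  · intro h n
    obtain ⟨e⟩ := Hshift X 1 (n - 1) n (by ring)
    have h1 := Cls.shift.1 ((h (n - 1)))
    rw [sub_add_cancel] at h1
    exact h1.congr e

theorem subsingleton_of_isZero {X : D R} (h : IsZero X) (n : ℤ) : Subsingleton ((H n).obj X) :=
  ModuleCat.subsingleton_of_isZero (Functor.map_isZero (H n) h)

theorem Cls.of_subsingleton (φ : ℝ) (n : ℤ) (M : ModuleCat.{0} R) [Nontrivial R] [Subsingleton M] :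
    Cls φ n M :=
  ⟨fun _ x => ⟨1, one_ne_zero, Subsingleton.elim _ _⟩,
    fun _ _ x _ => Or.inr (Subsingleton.elim _ _), fun _ _ => inferInstance⟩

variable [IsDomain R]

theorem PD_zero (φ : ℝ) {X : D R} (h : IsZero X) : PD φ X := by
  intro n
  have := subsingleton_of_isZero h n
  exact Cls.of_subsingleton φ n _

theorem Tors.ext {M₁ M₂ M₃ : ModuleCat.{0} R} (f : M₁ →ₗ[R] M₂) (g : M₂ →ₗ[R] M₃)
    (hfg : Function.Exact f g) (h1 : Tors M₁) (h3 : Tors M₃) : Tors M₂ := by
  intro x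
  obtain ⟨a, ha, h4⟩ := h3 (g x)
  rw [← map_smul] at h4
  obtain ⟨y, hy⟩ := (hfg _).1 h4
  obtain ⟨b, hb, h5⟩ := h1 y
  refine ⟨b * a, mul_ne_zero hb ha, ?_⟩
  rw [mul_smul, ← hy, ← map_smul, h5, map_zero]

theorem TF.ext {M₁ M₂ M₃ : ModuleCat.{0} R} (f : M₁ →ₗ[R] M₂) (g : M₂ →ₗ[R] M₃)
    (hfg : Function.Exact f g) (hf : Function.Injective f) (h1 : TF M₁) (h3 : TF M₃) : TF M₂ := by
  intro a x hx
  have h4 : a • g x = 0 := by rw [← map_smul, hx, map_zero]
  rcases h3 _ _ h4 with h5 | h5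
  · exact Or.inl h5
  · obtain ⟨y, rfl⟩ := (hfg _).1 h5
    rw [← map_smul] at hx
    have h6 : a • y = 0 := hf (by rw [hx, map_zero])
    rcases h1 _ _ h6 with h7 | h7
    · exact Or.inl h7
    · right; rw [h7, map_zero]

theorem zero_ext {M₁ M₂ M₃ : ModuleCat.{0} R} (f : M₁ →ₗ[R] M₂) (g : M₂ →ₗ[R] M₃)
    (hfg : Function.Exact f g) (h1 : Subsingleton M₁) (h3 : Subsingleton M₃) :
    Subsingleton M₂ := by
  refine ⟨fun x y => ?_⟩
  have h : ∀ x : M₂, x = 0 := fun x => by
    obtain ⟨y, hy⟩ := (hfg x).1 (Subsingleton.elim _ _)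
    rw [← hy, Subsingleton.elim y 0, map_zero]
  rw [h x, h y]

theorem PD_ext (φ : ℝ) (T : Triangle (D R)) (hT : T ∈ distTriang (D R)) (h1 : PD φ T.obj₁)
    (h3 : PD φ T.obj₃) : PD φ T.obj₂ := by
  intro n
  refine ⟨fun h => Tors.ext _ _ (exact_mid T hT n) ((h1 n).tors h) ((h3 n).tors h), fun h => ?_,
    fun ha hb => zero_ext _ _ (exact_mid T hT n) ((h1 n).zero ha hb) ((h3 n).zero ha hb)⟩
  refine TF.ext _ _ (exact_mid T hT n) ?_ ((h1 n).tf h) ((h3 n).tf h)
  have h4 : Subsingleton ((H (n - 1)).obj T.obj₃) := by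
    apply (h3 (n - 1)).zero
    · rw [h]; push_cast; intro h'; linarith
    · rw [h]; push_cast; intro h'; linarith
  have h5 := exact_left T hT (n - 1) n (by ring)
  rw [injective_iff_map_eq_zero]
  intro x hx
  obtain ⟨y, hy⟩ := (h5 x).1 hx
  rw [← hy, Subsingleton.elim y 0, map_zero]

end Pool.Agent.Q322.LX
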