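import Mathlib

set_option autoImplicit false

/-!
# Slicings, lax stability conditions, the Jordan-Hoelder property
-/

namespace Pool.Agent.Q322.LX

open CategoryTheory Limits Pretriangulated

universe v u

section JH

variable {𝒜 : Type u} [Category.{v} 𝒜] [HasZeroMorphisms 𝒜]

/-- `f` and `g` form a kernel-cokernel pair: `f` is a kernel of `g` and `g` is a cokernel of `f`. -/
def KCPair {X Y Z : 𝒜} (f : X ⟶ Y) (g : Y ⟶ Z) : Prop :=
  f ≫ g = 0 ∧
  (∀ (W : 𝒜) (h : W ⟶ Y), h ≫ g = 0 → ∃! k : W ⟶ X, k ≫ f = h) ∧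
  (∀ (W : 𝒜) (h : Y ⟶ W), f ≫ h = 0 → ∃! k : Z ⟶ W, g ≫ k = h)

/-- `S` is simple: it is not zero and in every kernel-cokernel pair `X ⟶ S ⟶ Z` one of `X`, `Z` is
zero (so the only strict subobjects are zero and `S`). -/
def SimpleObj (S : 𝒜) : Prop :=
  ¬ IsZero S ∧ ∀ (X Z : 𝒜) (f : X ⟶ S) (g : S ⟶ Z), KCPair f g → IsZero X ∨ IsZero Z

/-- `CompSeries Y L`: `Y` has a composition series (a finite chain of strict subobjects) whose
successive quotients are simple, the list of the quotients being `L`. -/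
inductive CompSeries : 𝒜 → List 𝒜 → Prop
  | zero (X : 𝒜) : IsZero X → CompSeries X []
  | step (X Y S : 𝒜) (L : List 𝒜) (f : X ⟶ Y) (g : Y ⟶ S) : KCPair f g → SimpleObj S →
      CompSeries X L → CompSeries Y (S :: L)

variable (𝒜)

/-- The Jordan-Hoelder property: two composition series of the same object have the same length
and, after a permutation, pairwise isomorphic factors. -/
def JordanHolder : Prop :=
  ∀ (X : 𝒜) (L L' : List 𝒜), CompSeries X L → CompSeries X L' →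
    ∃ L'' : List 𝒜, L''.Perm L' ∧ List.Forall₂ (fun A B => Nonempty (A ≅ B)) L L''

end JH

section Lax

variable {C : Type u} [Category.{v} C] [Preadditive C] [HasZeroObject C] [HasShift C ℤ]
  [∀ n : ℤ, (shiftFunctor C n).Additive] [Pretriangulated C]

/-- `HasHN P φ X`: the object `X` has a finite filtration by distinguished triangles with factors
in `P φ₁, ..., P φₙ`, where `φ₁ > ... > φₙ > φ`. -/
inductive HasHN (P : ℝ → ObjectProperty C) : ℝ → C → Prop
  | zero (φ : ℝ) (X : C) : IsZero X → HasHN P φ X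
  | step (φ ψ : ℝ) (T : Triangle C) : φ < ψ → T ∈ distTriang C → HasHN P ψ T.obj₁ →
      P ψ T.obj₃ → HasHN P φ T.obj₂

variable (C)

/-- A slicing in the sense of Bridgeland. -/
structure Slicing where
  /-- the slices -/
  P : ℝ → ObjectProperty C
  iso : ∀ φ, (P φ).IsClosedUnderIsomorphisms
  zero : ∀ φ X, IsZero X → P φ X
  sum : ∀ φ X Y, P φ X → P φ Y → P φ (X ⊞ Y)
  shift : ∀ φ X, P φ X ↔ P (φ + 1) (X⟦(1 : ℤ)⟧)
  hom_zero : ∀ φ₁ φ₂ X Y, φ₂ < φ₁ → P φ₁ X → P φ₂ Y → ∀ f : X ⟶ Y, f = 0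
  hn : ∀ X, ∃ φ, HasHN P φ X

/-- A lax stability condition with lattice `Λ = ℤⁿ` (with the maximum norm). -/
structure LaxStability (n : ℕ) extends Slicing C where
  /-- the class map, a homomorphism from the Grothendieck group to the lattice -/
  v : C → (Fin n → ℤ)
  v_add : ∀ T ∈ distTriang C, v T.obj₂ = v T.obj₁ + v T.obj₃
  /-- the charge -/
  Z : (Fin n → ℤ) →+ ℂ
  phase : ∀ φ X, P φ X → ¬ IsZero X →
    ∃ m : ℝ, 0 ≤ m ∧ Z (v X) = m * Complex.exp (Complex.I * Real.pi * φ)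
  support : ∃ K : ℝ, 0 < K ∧ ∀ (φ : ℝ) (S : (P φ).FullSubcategory), SimpleObj S →
    Z (v S.obj) ≠ 0 → ‖v S.obj‖ / K ≤ ‖Z (v S.obj)‖

end Lax

end Pool.Agent.Q322.LX
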