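import Pool.Agent.Q322.LX.Tf

set_option autoImplicit false

/-!
# The Jordan-Hoelder property fails over a domain with a nonprincipal ideal with two generators
-/

open CategoryTheory Limits DerivedCategory Pretriangulated
open scoped ZeroObject

set_option linter.unusedSectionVars false

namespace Pool.Agent.Q322.LX

attribute [local instance] HasDerivedCategory.standard

noncomputable section

variable {R : Type} [CommRing R] [IsDomain R] (s t : R)

/-- the ideal `(s, t)` -/
def I0 : Ideal R := Ideal.span {s, t}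

theorem mem_I0 (x : R) : x ∈ I0 s t ↔ ∃ p q, p * s + q * t = x := Ideal.mem_span_pair

/-- the map `(p, q) ↦ p s + q t` -/
def gmap : (R × R) →ₗ[R] I0 s t where
  toFun x := ⟨x.1 * s + x.2 * t, (mem_I0 s t _).2 ⟨x.1, x.2, rfl⟩⟩
  map_add' x y := Subtype.ext (by simp only [Prod.fst_add, Prod.snd_add, Submodule.coe_add]; ring)
  map_smul' c x := Subtype.ext (by
    simp only [Prod.smul_fst, Prod.smul_snd, smul_eq_mul, RingHom.id_apply,
      Submodule.coe_smul]; ring)

theorem gmap_surj : Function.Surjective (gmap s t) := by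
  rintro ⟨y, hy⟩
  obtain ⟨p, q, h⟩ := (mem_I0 s t y).1 hy
  exact ⟨(p, q), Subtype.ext h⟩

variable (R) in
theorem FR_prod : FR (ModuleCat.of R (R × R)) := by
  show Module.rank R (R × R) < Cardinal.aleph0
  exact Module.rank_lt_aleph0 R (R × R)

variable (R) in
theorem TF_prod : TF (ModuleCat.of R (R × R)) := fun a x h => by
  rcases eq_or_ne a 0 with h0 | h0
  · exact Or.inl h0
  · right
    have h1 : a * x.1 = 0 := congrArg Prod.fst h
    have h2 : a * x.2 = 0 := congrArg Prod.snd h
    exact Prod.ext ((mul_eq_zero.1 h1).resolve_left h0) ((mul_eq_zero.1 h2).resolve_left h0)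

variable (R) in
/-- the free module of rank two -/
def prodObj : TC R := ⟨ModuleCat.of R (R × R), TF_prod R, FR_prod R⟩

theorem TF_ideal : TF (ModuleCat.of R (I0 s t)) := fun a x h => by
  rcases eq_or_ne a 0 with h0 | h0
  · exact Or.inl h0
  · right
    have h1 : a * (Subtype.val (p := fun y => y ∈ I0 s t) x) = 0 := congrArg Subtype.val h
    exact Subtype.ext ((mul_eq_zero.1 h1).resolve_left h0)

/-- the ideal as an object -/
def idealObj : TC R := ⟨ModuleCat.of R (I0 s t), TF_ideal s t,
  lt_of_le_of_lt (Submodule.rank_le _) (FR_of_ring (R := R))⟩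

theorem TF_ker : TF (ModuleCat.of R (LinearMap.ker (gmap s t))) := fun a x h => by
  rcases TF_prod R a (Subtype.val (p := fun y => y ∈ LinearMap.ker (gmap s t)) x)
    (congrArg Subtype.val h) with h0 | h0
  · exact Or.inl h0
  · exact Or.inr (Subtype.ext h0)

/-- the kernel as an object -/
def kerObj : TC R := ⟨ModuleCat.of R (LinearMap.ker (gmap s t)), TF_ker s t,
  lt_of_le_of_lt (Submodule.rank_le _) (FR_prod R)⟩

variable (R) in
theorem simple_ring : SimpleObj (ringObj R) := by
  apply simple_of_rank_one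
  · exact ⟨(1 : R), one_ne_zero (α := R)⟩
  · intro (x : R) (y : R) hx
    exact ⟨x, y, hx, mul_comm x y⟩

theorem simple_ideal (ht : t ≠ 0) : SimpleObj (idealObj s t) := by
  apply simple_of_rank_one
  · refine ⟨(⟨t, (mem_I0 s t t).2 ⟨0, 1, by ring⟩⟩ : I0 s t), fun h => ?_⟩
    exact ht (congrArg Subtype.val h)
  · intro (x : I0 s t) (y : I0 s t) hx
    refine ⟨x.1, y.1, fun h => hx (Subtype.ext h), ?_⟩
    exact Subtype.ext (mul_comm x.1 y.1)

theorem mem_ker (x : R × R) : x ∈ LinearMap.ker (gmap s t) ↔ x.1 * s + x.2 * t = 0 := by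
  rw [LinearMap.mem_ker]
  constructor
  · intro h; exact congrArg Subtype.val h
  · intro h; exact Subtype.ext h

theorem simple_ker (ht : t ≠ 0) : SimpleObj (kerObj s t) := by
  apply simple_of_rank_one
  · refine ⟨(⟨(t, -s), (mem_ker s t _).2 (by ring)⟩ : LinearMap.ker (gmap s t)), fun h => ?_⟩
    exact ht (congrArg (fun z : LinearMap.ker (gmap s t) => z.1.1) h)
  · intro (x : LinearMap.ker (gmap s t)) (y : LinearMap.ker (gmap s t)) hx
    have h1 : x.1.1 * s + x.1.2 * t = 0 := (mem_ker s t _).1 x.2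
    have h2 : y.1.1 * s + y.1.2 * t = 0 := (mem_ker s t _).1 y.2
    have hp : x.1.1 ≠ 0 := by
      intro h0
      rw [h0, zero_mul, zero_add] at h1
      have hq : x.1.2 = 0 := (mul_eq_zero.1 h1).resolve_right ht
      exact hx (Subtype.ext (Prod.ext h0 hq))
    refine ⟨x.1.1, y.1.1, hp, ?_⟩
    have h3 : (x.1.1 * y.1.2 - y.1.1 * x.1.2) * t = 0 := by
      linear_combination x.1.1 * h2 - y.1.1 * h1
    have h4 : x.1.1 * y.1.2 = y.1.1 * x.1.2 :=
      sub_eq_zero.1 ((mul_eq_zero.1 h3).resolve_right ht)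
    exact Subtype.ext (Prod.ext (mul_comm _ _) h4)

variable (R) in
/-- a zero object -/
def zeroObj : TC R := ⟨ModuleCat.of R PUnit, fun _ _ _ => Or.inr rfl,
  FR.of_subsingleton _⟩

variable (R) in
theorem isZero_zeroObj : IsZero (zeroObj R) := isZero_TC fun _ => rfl

variable (R) in
theorem series_one : CompSeries (prodObj R) [ringObj R, ringObj R] := by
  refine CompSeries.step (ringObj R) (prodObj R) (ringObj R) [ringObj R]
    (ObjectProperty.homMk (ModuleCat.ofHom (LinearMap.inl R R R)))
    (ObjectProperty.homMk (ModuleCat.ofHom (LinearMap.snd R R R))) ?_ (simple_ring R)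
    (compSeries_simple (zeroObj R) _ (isZero_zeroObj R) (simple_ring R))
  apply kc_of_ses
  · exact (LinearMap.inl_injective : Function.Injective (LinearMap.inl R R R))
  · exact (LinearMap.snd_surjective : Function.Surjective (LinearMap.snd R R R))
  · exact (Function.Exact.inl_snd : Function.Exact (LinearMap.inl R R R) (LinearMap.snd R R R))

theorem series_two (ht : t ≠ 0) : CompSeries (prodObj R) [idealObj s t, kerObj s t] := by
  refine CompSeries.step (kerObj s t) (prodObj R) (idealObj s t) [kerObj s t]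
    (ObjectProperty.homMk (ModuleCat.ofHom (LinearMap.ker (gmap s t)).subtype))
    (ObjectProperty.homMk (ModuleCat.ofHom (gmap s t))) ?_ (simple_ideal s t ht)
    (compSeries_simple (zeroObj R) _ (isZero_zeroObj R) (simple_ker s t ht))
  apply kc_of_ses
  · exact Subtype.val_injective
  · exact gmap_surj s t
  · exact LinearMap.exact_subtype_ker_map (gmap s t)

theorem not_iso (hI : ∀ x : I0 s t, ∃ y : I0 s t, ∀ c : R, c • x ≠ y)
    (h : Nonempty ((G R).obj (ringObj R) ≅ (G R).obj (idealObj s t))) : False := by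
  obtain ⟨e⟩ := h
  have e1 : ringObj R ≅ idealObj s t := (G R).preimageIso e
  have e2 : ModuleCat.of R R ≅ ModuleCat.of R (I0 s t) := (TFM R).ι.mapIso e1
  let e3 : R ≃ₗ[R] I0 s t := e2.toLinearEquiv
  obtain ⟨y, hy⟩ := hI (e3 1)
  apply hy (e3.symm y)
  rw [← map_smul, smul_eq_mul, mul_one, LinearEquiv.apply_symm_apply]

theorem not_JH (ht : t ≠ 0) (hI : ∀ x : I0 s t, ∃ y : I0 s t, ∀ c : R, c • x ≠ y) :
    ¬ JordanHolder (PC (R := R) (1 / 2)).FullSubcategory := by
  intro h
  obtain ⟨L, hL, hf⟩ := h _ _ _ ((series_one R).map (G R)) ((series_two s t ht).map (G R))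
  have hmem : (G R).obj (idealObj s t) ∈ L := hL.mem_iff.2 (by simp)
  simp only [List.map_cons, List.map_nil] at hf
  rcases hf with _ | ⟨h1, hf⟩
  rcases hf with _ | ⟨h2, hf⟩
  cases hf
  simp only [List.mem_cons, List.not_mem_nil, or_false] at hmem
  rcases hmem with h3 | h3
  · rw [← h3] at h1
    exact not_iso s t hI h1
  · rw [← h3] at h2
    exact not_iso s t hI h2

end

end Pool.Agent.Q322.LX
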