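import Pool.Agent.Q322.LX.Sl

set_option autoImplicit false

/-!
# Harder-Narasimhan filtrations, the slicing
-/

open CategoryTheory Limits DerivedCategory Pretriangulated
open scoped ZeroObject

set_option linter.unusedSectionVars false

namespace Pool.Agent.Q322.LX

attribute [local instance] HasDerivedCategory.standard

variable {R : Type} [CommRing R] [IsDomain R]

theorem FR.of_sub {M : ModuleCat.{0} R} (h : Subsingleton M) : FR M := FR.of_subsingleton M

theorem lift_tri (X Y Z : CC R) (f : X.obj ⟶ Y.obj) (g : Y.obj ⟶ Z.obj)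
    (h : Z.obj ⟶ X.obj⟦(1 : ℤ)⟧) (hT : Triangle.mk f g h ∈ distTriang (D R)) :
    ∃ T : Triangle (CC R), T ∈ distTriang (CC R) ∧ T.obj₁ = X ∧ T.obj₂ = Y ∧ T.obj₃ = Z := by
  refine ⟨Triangle.mk ((FB R).fullyFaithfulι.preimage (X := X) (Y := Y) f)
    ((FB R).fullyFaithfulι.preimage (X := Y) (Y := Z) g)
    ((FB R).fullyFaithfulι.preimage (X := Z) (Y := X⟦(1 : ℤ)⟧)
      (h ≫ ((FB R).ι.commShiftIso (1 : ℤ)).inv.app X)), ?_, rfl, rfl, rfl⟩
  refine isomorphic_distinguished _ hT _
    (Triangle.isoMk _ _ (Iso.refl _) (Iso.refl _) (Iso.refl _) ?_ ?_ ?_)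
  · exact (Category.comp_id _).trans (Category.id_comp _).symm
  · exact (Category.comp_id _).trans (Category.id_comp _).symm
  · have e : ((FB R).ι.mapTriangle.obj (Triangle.mk
        ((FB R).fullyFaithfulι.preimage (X := X) (Y := Y) f)
        ((FB R).fullyFaithfulι.preimage (X := Y) (Y := Z) g)
        ((FB R).fullyFaithfulι.preimage (X := Z) (Y := X⟦(1 : ℤ)⟧)
          (h ≫ ((FB R).ι.commShiftIso (1 : ℤ)).inv.app X)))).mor₃ = h := by
      show (h ≫ ((FB R).ι.commShiftIso (1 : ℤ)).inv.app X) ≫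
        ((FB R).ι.commShiftIso (1 : ℤ)).hom.app X = h
      rw [Category.assoc, Iso.inv_hom_id_app]
      exact Category.comp_id _
    rw [e]
    show h ≫ (shiftFunctor (D R) (1 : ℤ)).map (𝟙 _) = 𝟙 _ ≫ h
    rw [CategoryTheory.Functor.map_id, Category.id_comp]
    exact Category.comp_id _

theorem lift_tri' (X Y Z : D R) (hX : FB R X) (hY : FB R Y) (hZ : FB R Z) (f : X ⟶ Y) (g : Y ⟶ Z)
    (h : Z ⟶ X⟦(1 : ℤ)⟧) (hT : Triangle.mk f g h ∈ distTriang (D R)) (φ ψ : ℝ) (hφ : φ < ψ)
    (h1 : HasHN PC ψ (⟨X, hX⟩ : CC R)) (h3 : PC ψ (⟨Z, hZ⟩ : CC R)) :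
    HasHN PC φ (⟨Y, hY⟩ : CC R) := by
  obtain ⟨T, hT', e1, e2, e3⟩ := lift_tri ⟨X, hX⟩ ⟨Y, hY⟩ ⟨Z, hZ⟩ f g h hT
  have := HasHN.step (P := PC (R := R)) φ ψ T hφ hT' (by rw [e1]; exact h1) (by rw [e3]; exact h3)
  rwa [e2] at this

theorem isZero_C {X : CC R} (h : IsZero X.obj) : IsZero X := by
  rw [IsZero.iff_id_eq_zero]
  apply (FB R).ι.map_injective
  exact h.eq_of_src _ _

/-- the truncation triangle at the top degree -/
theorem trunc (X : D R) (hX : FRo R X) (a b : ℤ) (hab : a ≤ b + 1) (hb : Bd a b X) :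
    ∃ (X' X'' : D R) (f : X' ⟶ X) (g : X ⟶ X'') (h : X'' ⟶ X'⟦(1 : ℤ)⟧),
      Triangle.mk f g h ∈ distTriang (D R) ∧ Bd a (b - 1) X' ∧ Bd b b X'' ∧ FRo R X' ∧
      FRo R X'' ∧ Function.Injective ((H b).map g).hom ∧ Function.Surjective ((H b).map g).hom := by
  obtain ⟨X', X'', hX', hX'', f, g, h, hT⟩ :=
    (TStructure.t : Triangulated.TStructure (D R)).exists_triangle X (b - 1) b (by ring)
  have l' : X'.IsLE (b - 1) := ⟨hX'⟩
  have g'' : X''.IsGE b := ⟨hX''⟩
  have z' : ∀ n, b - 1 < n → Subsingleton ((H n).obj X') := fun n hn =>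
    ModuleCat.subsingleton_of_isZero (isZero_of_isLE X' (b - 1) n hn)
  have z'' : ∀ n, n < b → Subsingleton ((H n).obj X'') := fun n hn =>
    ModuleCat.subsingleton_of_isZero (isZero_of_isGE X'' b n hn)
  have em := exact_mid _ hT
  have er := exact_right _ hT
  have el := exact_left _ hT
  refine ⟨X', X'', f, g, h, hT, ?_, ?_, ?_, ?_, ?_, ?_⟩
  · intro n hn
    rcases hn with hn | hn
    · exact zero_ext _ _ (el (n - 1) n (by ring)) (z'' (n - 1) (by omega)) (hb n (Or.inl hn))
    · exact z' n hn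
  · intro n hn
    rcases hn with hn | hn
    · exact z'' n hn
    · exact zero_ext _ _ (er n (n + 1) rfl) (hb n (Or.inr hn)) (z' (n + 1) (by omega))
  · intro n
    rcases lt_or_ge (b - 1) n with hn | hn
    · have := z' n hn
      exact FR.of_subsingleton _
    · exact FR.ext _ _ (el (n - 1) n (by ring)) (FR.of_sub (z'' (n - 1) (by omega))) (hX n)
  · intro n
    rcases lt_or_ge n b with hn | hn
    · have := z'' n hn
      exact FR.of_subsingleton _
    · exact FR.ext _ _ (er n (n + 1) rfl) (hX n) (FR.of_sub (z' (n + 1) (by omega)))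
  · rw [injective_iff_map_eq_zero]
    intro x hx
    obtain ⟨y, hy⟩ := (em b x).1 hx
    rw [← hy, @Subsingleton.elim _ (z' b (by omega)) y 0]
    exact map_zero _
  · intro x
    obtain ⟨y, hy⟩ := (er b (b + 1) rfl x).1 (@Subsingleton.elim _ (z' (b + 1) (by omega)) _ _)
    exact ⟨y, hy⟩

theorem FB_of {X : D R} {a b : ℤ} (h1 : Bd a b X) (h2 : FRo R X) : FB R X :=
  ⟨(bounded_iff X).2 ⟨a, b, h1⟩, h2⟩

/-- the induction hypothesis -/
def IH (R : Type) [CommRing R] [IsDomain R] (a b : ℤ) : Prop :=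
  ∀ X : CC R, Bd a b X.obj → ∀ φ : ℝ, φ < 1 / 2 - b → HasHN PC φ X

theorem stepA (a b : ℤ) (hab : a ≤ b + 1) (ih : IH R a (b - 1)) (X : CC R) (hb : Bd a b X.obj)
    (ht : Tors ((H b).obj X.obj)) (φ : ℝ) (hφ : φ < 1 - b) : HasHN PC φ X := by
  obtain ⟨X', X'', f, g, h, hT, b', b'', r', r'', -, hs⟩ := trunc X.obj X.2.2 a b hab hb
  refine lift_tri' X' X.obj X'' (FB_of b' r') X.2 (FB_of b'' r'') f g h hT φ (1 - b) hφ
    (ih _ b' _ (by push_cast; linarith)) ?_
  intro n
  show Cls _ n ((H n).obj X'')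
  rcases eq_or_ne n b with rfl | hn
  · refine ⟨fun _ x => ?_, fun h1 => ?_, fun h1 => absurd rfl h1⟩
    · obtain ⟨y, rfl⟩ := hs x
      obtain ⟨c, hc, h2⟩ := ht y
      refine ⟨c, hc, ?_⟩
      rw [← map_smul, h2, map_zero]
    · exfalso; linarith
  · have := b'' n (by omega)
    exact Cls.of_subsingleton _ _ _

theorem torsion_quot (M : ModuleCat.{0} R) :
    TF (ModuleCat.of R (M ⧸ Submodule.torsion R M)) := by
  intro a x hx
  by_cases ha : a = 0
  · exact Or.inl ha
  · right
    obtain ⟨y, rfl⟩ := Submodule.Quotient.mk_surjective _ x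
    change Submodule.Quotient.mk (a • y) = 0 at hx
    rw [Submodule.Quotient.mk_eq_zero, Submodule.mem_torsion_iff] at hx
    obtain ⟨c, hc⟩ := hx
    change Submodule.Quotient.mk y = 0
    rw [Submodule.Quotient.mk_eq_zero, Submodule.mem_torsion_iff]
    refine ⟨c * ⟨a, mem_nonZeroDivisors_of_ne_zero ha⟩, ?_⟩
    rw [mul_smul]
    exact hc

theorem stepB (a b : ℤ) (hab : a ≤ b) (ih : IH R a (b - 1)) : IH R a b := by
  intro X hb φ hφ
  obtain ⟨X', X'', f, g, h, hT, b', b'', r', r'', hi, hs⟩ := trunc X.obj X.2.2 a b (by omega) hb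
  have i1 := b''.isLE
  have i2 := b''.isGE
  obtain ⟨M, ⟨eM⟩⟩ := exists_iso_singleFunctor_obj_of_isGE_of_isLE X'' b
  let F : ModuleCat.{0} R := ModuleCat.of R (M ⧸ Submodule.torsion R M)
  let q : M ⟶ F := ModuleCat.ofHom (Submodule.mkQ _)
  let Y : D R := (singleFunctor (ModuleCat.{0} R) b).obj F
  let k : X.obj ⟶ Y := g ≫ eM.hom ≫ (singleFunctor (ModuleCat.{0} R) b).map q
  have bY : Bd b b Y := Bd.of inferInstance inferInstance
  have rM : FR M := (r'' b).congr ((Hiso eM b).trans (Hsingle b M))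
  have rY : FRo R Y := by
    intro n
    rcases eq_or_ne n b with rfl | hn
    · refine FR.congr (Hsingle n F).symm ?_
      exact lt_of_le_of_lt (rank_quotient_le _) rM
    · have := bY n (by omega)
      exact FR.of_subsingleton _
  -- the map in cohomology
  have hk : ∀ x : (H b).obj X.obj, Hsingle b F ((H b).map k x) =
      q (Hsingle b M (Hiso eM b ((H b).map g x))) := by
    intro x
    have e1 : (H b).map k x = (H b).map ((singleFunctor (ModuleCat.{0} R) b).map q)
        (Hiso eM b ((H b).map g x)) := by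
      show (H b).map (g ≫ eM.hom ≫ (singleFunctor (ModuleCat.{0} R) b).map q) x = _
      rw [Functor.map_comp, Functor.map_comp]
      rfl
    rw [e1, Hsingle_nat]
  obtain ⟨E, u, w, hE⟩ := distinguished_cocone_triangle₁ k
  have em := exact_mid _ hE
  have er := exact_right _ hE
  have el := exact_left _ hE
  have hksurj : Function.Surjective ((H b).map k).hom := by
    intro y
    obtain ⟨m, hm⟩ := Submodule.mkQ_surjective (Submodule.torsion R M) (Hsingle b F y)
    obtain ⟨x, hx⟩ := hs ((Hiso eM b).symm ((Hsingle b M).symm m))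
    refine ⟨x, (Hsingle b F).injective ?_⟩
    refine (hk x).trans ?_
    have hx' : (H b).map g x = (Hiso eM b).symm ((Hsingle b M).symm m) := hx
    rw [hx', LinearEquiv.apply_symm_apply, LinearEquiv.apply_symm_apply]
    exact hm
  have bE : Bd a b E := by
    intro n hn
    rcases hn with hn | hn
    · exact zero_ext _ _ (el (n - 1) n (by ring)) (bY (n - 1) (by omega)) (hb n (Or.inl hn))
    · rcases eq_or_ne n (b + 1) with rfl | hne
      · have h0 := hb (b + 1) (Or.inr (by omega))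
        refine ⟨fun x y => ?_⟩
        have h1 : ∀ x : (H (b + 1)).obj E, x = 0 := by
          intro x
          obtain ⟨z, hz⟩ := (el b (b + 1) rfl x).1 (@Subsingleton.elim _ h0 _ _)
          obtain ⟨z', rfl⟩ := hksurj z
          rw [← hz]
          exact (er b (b + 1) rfl _).2 ⟨z', rfl⟩
        rw [h1 x, h1 y]
      · exact zero_ext _ _ (el (n - 1) n (by ring)) (bY (n - 1) (by omega)) (hb n (Or.inr hn))
  have rE : FRo R E := by
    intro n
    exact FR.ext _ _ (el (n - 1) n (by ring)) (rY (n - 1)) (X.2.2 n)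
  have tE : Tors ((H b).obj E) := by
    intro x
    have hz : (H b).map k ((H b).map u x) = 0 := (em b _).2 ⟨x, rfl⟩
    have h1 := hk ((H b).map u x)
    rw [hz, map_zero] at h1
    have h2 : Hsingle b M (Hiso eM b ((H b).map g ((H b).map u x))) ∈ Submodule.torsion R M :=
      (Submodule.Quotient.mk_eq_zero _).1 h1.symm
    rw [Submodule.mem_torsion_iff] at h2
    obtain ⟨c, hc⟩ := h2
    refine ⟨c, nonZeroDivisors.coe_ne_zero c, ?_⟩
    have hc' : (c : R) • Hsingle b M (Hiso eM b ((H b).map g ((H b).map u x))) = 0 := hc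
    rw [← map_smul, ← map_smul] at hc'
    have h3 := (Hiso eM b).map_eq_zero_iff.1 ((Hsingle b M).map_eq_zero_iff.1 hc')
    have h4 : (H b).map g ((c : R) • (H b).map u x) = 0 := by
      rw [← h3]; exact map_smul ((H b).map g).hom _ _
    have h5 : (c : R) • (H b).map u x = 0 := hi (h4.trans (map_zero _).symm)
    have h6 : (H b).map u ((c : R) • x) = 0 := by
      rw [← h5]; exact map_smul ((H b).map u).hom _ _
    obtain ⟨y, hy⟩ := (el (b - 1) b (by ring) _).1 h6
    rw [← hy, @Subsingleton.elim _ (bY (b - 1) (by omega)) y 0]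
    exact map_zero _
  refine lift_tri' E X.obj Y (FB_of bE rE) X.2 (FB_of bY rY) u k w hE φ (1 / 2 - b) hφ
    (stepA a b (by omega) ih _ bE tE _ (by linarith)) ?_
  intro n
  show Cls _ n ((H n).obj Y)
  rcases eq_or_ne n b with rfl | hn
  · refine ⟨fun h1 => ?_, fun _ => ?_, fun _ h2 => absurd rfl h2⟩
    · exfalso; linarith
    · exact (torsion_quot M).congr (Hsingle n F).symm
  · have := bY n (by omega)
    exact Cls.of_subsingleton _ _ _

theorem ih_all (N : ℕ) : ∀ b : ℤ, IH R (b - N + 1) b := by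
  induction N with
  | zero =>
    intro b X hb φ _
    apply HasHN.zero
    have hz : IsZero X.obj := by
      apply isZero_of_H
      intro n
      apply hb
      push_cast
      omega
    exact isZero_C hz
  | succ N ih =>
    intro b
    apply stepB
    · push_cast; omega
    · have := ih (b - 1)
      have e : b - 1 - (N : ℤ) + 1 = b - ((N + 1 : ℕ) : ℤ) + 1 := by push_cast; ring
      rwa [e] at this

theorem hn_all (X : CC R) : ∃ φ, HasHN PC φ X := by
  obtain ⟨a, b, hb⟩ := (bounded_iff X.obj).1 X.2.1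
  refine ⟨1 / 2 - b - 1, ih_all (b + 1 - a).toNat b X ?_ _ (by linarith)⟩
  intro n hn
  apply hb
  rcases hn with hn | hn
  · rcases le_or_gt a (b + 1) with h | h
    · left
      have : ((b + 1 - a).toNat : ℤ) = b + 1 - a := Int.toNat_of_nonneg (by omega)
      omega
    · left
      have : ((b + 1 - a).toNat : ℤ) = 0 := by
        rw [Int.toNat_of_nonpos (by omega)]; rfl
      omega
  · exact Or.inr hn

end Pool.Agent.Q322.LX
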