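import Pool.Agent.Q322.LX.Lax

set_option autoImplicit false

/-!
# The Jordan-Hoelder property fails in the slice of phase 1/2
-/

open CategoryTheory Limits DerivedCategory Pretriangulated
open scoped ZeroObject

set_option linter.unusedSectionVars false

namespace Pool.Agent.Q322.LX

attribute [local instance] HasDerivedCategory.standard

section transport

universe v₁ v₂ u₁ u₂

variable {A : Type u₁} [Category.{v₁} A] [HasZeroMorphisms A] {B : Type u₂} [Category.{v₂} B]
  [HasZeroMorphisms B] (G : A ⥤ B) [G.Full] [G.Faithful] [G.EssSurj]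
  [G.PreservesZeroMorphisms]

theorem KCPair.map {X Y Z : A} {f : X ⟶ Y} {g : Y ⟶ Z} (h : KCPair f g) :
    KCPair (G.map f) (G.map g) := by
  obtain ⟨h0, h1, h2⟩ := h
  refine ⟨by rw [← G.map_comp, h0, G.map_zero], ?_, ?_⟩
  · intro W k hk
    let e := G.objObjPreimageIso W
    obtain ⟨k', hk'⟩ := G.map_surjective (e.hom ≫ k)
    have h3 : k' ≫ g = 0 := by
      apply G.map_injective
      rw [G.map_comp, hk', Category.assoc, hk, comp_zero, G.map_zero]
    obtain ⟨l, hl, hu⟩ := h1 _ k' h3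
    refine ⟨e.inv ≫ G.map l, ?_, ?_⟩
    · show (e.inv ≫ G.map l) ≫ G.map f = k
      rw [Category.assoc, ← G.map_comp, hl, hk', Iso.inv_hom_id_assoc]
    · intro m hm
      obtain ⟨m', hm'⟩ := G.map_surjective (e.hom ≫ m)
      have h4 : m' ≫ f = k' := by
        apply G.map_injective
        rw [G.map_comp, hm', hk', Category.assoc, hm]
      rw [← hu m' h4, hm', Iso.inv_hom_id_assoc]
  · intro W k hk
    let e := G.objObjPreimageIso W
    obtain ⟨k', hk'⟩ := G.map_surjective (k ≫ e.inv)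
    have h3 : f ≫ k' = 0 := by
      apply G.map_injective
      rw [G.map_comp, hk', ← Category.assoc, hk, zero_comp, G.map_zero]
    obtain ⟨l, hl, hu⟩ := h2 _ k' h3
    refine ⟨G.map l ≫ e.hom, ?_, ?_⟩
    · show G.map g ≫ G.map l ≫ e.hom = k
      rw [← Category.assoc, ← G.map_comp, hl, hk', Category.assoc, Iso.inv_hom_id,
        Category.comp_id]
    · intro m hm
      obtain ⟨m', hm'⟩ := G.map_surjective (m ≫ e.inv)
      have h4 : g ≫ m' = k' := by
        apply G.map_injective
        rw [G.map_comp, hm', hk', ← Category.assoc, hm]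
      rw [← hu m' h4, hm', Category.assoc, Iso.inv_hom_id, Category.comp_id]

theorem isZero_map_iff (X : A) : IsZero (G.obj X) ↔ IsZero X := by
  constructor
  · intro h
    rw [IsZero.iff_id_eq_zero] at h ⊢
    apply G.map_injective
    rw [G.map_id, h, G.map_zero]
  · intro h
    rw [IsZero.iff_id_eq_zero] at h ⊢
    rw [← G.map_id, h, G.map_zero]

theorem KCPair.unmap {X Y Z : A} {f : X ⟶ Y} {g : Y ⟶ Z} (h : KCPair (G.map f) (G.map g)) :
    KCPair f g := by
  obtain ⟨h0, h1, h2⟩ := h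
  refine ⟨G.map_injective (by rw [G.map_comp, h0, G.map_zero]), ?_, ?_⟩
  · intro W k hk
    obtain ⟨l, hl, hu⟩ := h1 (G.obj W) (G.map k) (by rw [← G.map_comp, hk, G.map_zero])
    obtain ⟨l', hl'⟩ := G.map_surjective l
    refine ⟨l', G.map_injective (by rw [G.map_comp, hl', hl]), fun m hm => ?_⟩
    apply G.map_injective
    rw [hl']
    exact hu _ (by show G.map m ≫ G.map f = G.map k; rw [← G.map_comp, hm])
  · intro W k hk
    obtain ⟨l, hl, hu⟩ := h2 (G.obj W) (G.map k) (by rw [← G.map_comp, hk, G.map_zero])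
    obtain ⟨l', hl'⟩ := G.map_surjective l
    refine ⟨l', G.map_injective (by rw [G.map_comp, hl', hl]), fun m hm => ?_⟩
    apply G.map_injective
    rw [hl']
    exact hu _ (by show G.map g ≫ G.map m = G.map k; rw [← G.map_comp, hm])

theorem KCPair.of_iso {B : Type u₂} [Category.{v₂} B] [HasZeroMorphisms B] {X Y Z X' Z' : B}
    {f : X ⟶ Y} {g : Y ⟶ Z} (h : KCPair f g) (e : X' ≅ X) (e' : Z ≅ Z') :
    KCPair (e.hom ≫ f) (g ≫ e'.hom) := by
  obtain ⟨h0, h1, h2⟩ := h
  refine ⟨by rw [Category.assoc, ← Category.assoc f, h0, zero_comp, comp_zero], ?_, ?_⟩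
  · intro W k hk
    have h3 : k ≫ g = 0 := by
      rw [← Category.assoc] at hk
      rw [← cancel_mono e'.hom, hk, zero_comp]
    obtain ⟨l, hl, hu⟩ := h1 W k h3
    refine ⟨l ≫ e.inv, ?_, fun m hm => ?_⟩
    · show (l ≫ e.inv) ≫ e.hom ≫ f = k
      rw [Category.assoc, Iso.inv_hom_id_assoc, hl]
    · rw [← hu (m ≫ e.hom) (by show (m ≫ e.hom) ≫ f = k; rw [Category.assoc]; exact hm),
        Category.assoc, Iso.hom_inv_id, Category.comp_id]
  · intro W k hk
    have h3 : f ≫ k = 0 := by
      rw [Category.assoc] at hk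
      rw [← cancel_epi e.hom, hk, comp_zero]
    obtain ⟨l, hl, hu⟩ := h2 W k h3
    refine ⟨e'.inv ≫ l, ?_, fun m hm => ?_⟩
    · show (g ≫ e'.hom) ≫ e'.inv ≫ l = k
      rw [Category.assoc, Iso.hom_inv_id_assoc, hl]
    · rw [← hu (e'.hom ≫ m) (by
        show g ≫ e'.hom ≫ m = k; rw [← Category.assoc]; exact hm), Iso.inv_hom_id_assoc]

theorem SimpleObj.map {S : A} (h : SimpleObj S) : SimpleObj (G.obj S) := by
  refine ⟨fun h0 => h.1 ((isZero_map_iff G S).1 h0), ?_⟩
  intro X Z f g hfg
  let e := G.objObjPreimageIso X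
  let e' := G.objObjPreimageIso Z
  obtain ⟨f', hf'⟩ := G.map_surjective (e.hom ≫ f)
  obtain ⟨g', hg'⟩ := G.map_surjective (g ≫ e'.symm.hom)
  have h1 : KCPair (G.map f') (G.map g') := by
    rw [hf', hg']
    exact hfg.of_iso e e'.symm
  rcases h.2 _ _ f' g' (h1.unmap G) with h2 | h2
  · exact Or.inl (((isZero_map_iff G _).2 h2).of_iso e.symm)
  · exact Or.inr (((isZero_map_iff G _).2 h2).of_iso e'.symm)

theorem CompSeries.map {X : A} {L : List A} (h : CompSeries X L) :
    CompSeries (G.obj X) (L.map G.obj) := by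
  induction h with
  | zero X h => exact CompSeries.zero _ ((isZero_map_iff G X).2 h)
  | step X Y S L f g hfg hS _ ih =>
    exact CompSeries.step _ _ _ _ (G.map f) (G.map g) (hfg.map G) (hS.map G) ih

end transport

end Pool.Agent.Q322.LX
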