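import Pool.Agent.Q322.LX.Hn

set_option autoImplicit false

/-!
# The lax stability condition
-/

open CategoryTheory Limits DerivedCategory Pretriangulated
open scoped ZeroObject

set_option linter.unusedSectionVars false

namespace Pool.Agent.Q322.LX

attribute [local instance] HasDerivedCategory.standard

variable {R : Type} [CommRing R] [IsDomain R]

variable (R) in
/-- the slicing -/
noncomputable def slicing : Slicing (CC R) where
  P := PC
  iso φ := ⟨fun e h => PD_iso ((FB R).ι.mapIso e) h⟩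
  zero φ X h := PD_zero φ ((FB R).ι.map_isZero h)
  sum φ X Y hX hY := PD_ext φ ((FB R).ι.mapTriangle.obj (binaryBiproductTriangle X Y))
    (binaryBiproductTriangle_distinguished X Y) hX hY
  shift φ X := by
    have e : (X⟦(1 : ℤ)⟧).obj ≅ X.obj⟦(1 : ℤ)⟧ := ((FB R).ι.commShiftIso (1 : ℤ)).app X
    exact (PD_shift φ X.obj).trans ⟨fun h => PD_iso e.symm h, fun h => PD_iso e h⟩
  hom_zero φ₁ φ₂ X Y h hX hY f := by
    apply (FB R).ι.map_injective
    rw [hom_zero_D φ₁ φ₂ X.obj Y.obj h hX hY ((FB R).ι.map f), Functor.map_zero]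
  hn := hn_all

/-! ### Ranks -/

/-- the rank of the cohomology -/
noncomputable def rk (X : D R) (n : ℤ) : ℤ := Module.finrank R ((H n).obj X)

theorem finrank_add {M N : ModuleCat.{0} R} (f : M →ₗ[R] N) (hM : FR M) :
    (Module.finrank R (LinearMap.range f) : ℤ) + Module.finrank R (LinearMap.ker f) =
      Module.finrank R M := by
  have h := LinearMap.rank_range_add_rank_ker f
  have h1 : Module.rank R (LinearMap.range f) < Cardinal.aleph0 :=
    lt_of_le_of_lt (rank_range_le f) hM
  have h2 : Module.rank R (LinearMap.ker f) < Cardinal.aleph0 :=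
    lt_of_le_of_lt (Submodule.rank_le _) hM
  have h3 := congrArg Cardinal.toNat h
  rw [Cardinal.toNat_add h1 h2] at h3
  have h4 : Module.finrank R (LinearMap.range f) + Module.finrank R (LinearMap.ker f) =
      Module.finrank R M := h3
  exact_mod_cast h4

theorem finrank_range_zero {M N : ModuleCat.{0} R} (f : M →ₗ[R] N) (hM : FR M)
    (h0 : Module.finrank R M = 0) : Module.finrank R (LinearMap.range f) = 0 := by
  have := finrank_add f hM
  omega

/-- the sign -/
def sg (n : ℤ) : ℤ := (Int.negOnePow n : ℤ)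

theorem sg_succ (n : ℤ) : sg (n + 1) = - sg n := by
  simp [sg, Int.negOnePow_succ]

/-- the Euler characteristic -/
noncomputable def chi (X : D R) : ℤ := ∑ᶠ n : ℤ, sg n * rk X n

theorem rk_zero {X : D R} {a b : ℤ} (h : Bd a b X) {n : ℤ} (hn : n < a ∨ b < n) : rk X n = 0 := by
  have := h n hn
  unfold rk
  rw [Module.finrank_zero_of_subsingleton]
  rfl

theorem supp_fin (f : ℤ → ℤ) (a b : ℤ) (h : ∀ n, (n < a ∨ b < n) → f n = 0) :
    (Function.support fun n => sg n * f n).Finite := by
  apply (Set.finite_Icc a b).subset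
  intro n hn
  by_contra h1
  rw [Set.mem_Icc, not_and_or, not_le, not_le] at h1
  exact hn (by show sg n * f n = 0; rw [h n h1, mul_zero])

theorem chi_add (T : Triangle (D R)) (hT : T ∈ distTriang (D R)) (h1 : FB R T.obj₁)
    (h2 : FB R T.obj₂) (h3 : FB R T.obj₃) : chi T.obj₂ = chi T.obj₁ + chi T.obj₃ := by
  obtain ⟨a₁, b₁, hb₁⟩ := (bounded_iff _).1 h1.1
  obtain ⟨a₂, b₂, hb₂⟩ := (bounded_iff _).1 h2.1
  obtain ⟨a₃, b₃, hb₃⟩ := (bounded_iff _).1 h3.1
  let A : ℤ → ℤ := fun n => Module.finrank R (LinearMap.range ((H n).map T.mor₁).hom)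
  let B : ℤ → ℤ := fun n => Module.finrank R (LinearMap.range ((H n).map T.mor₂).hom)
  let E : ℤ → ℤ := fun n =>
    Module.finrank R (LinearMap.range (HomologySequence.δ T n (n + 1) rfl).hom)
  have e1 : ∀ n, rk T.obj₁ (n + 1) = E n + A (n + 1) := by
    intro n
    have h := finrank_add ((H (n + 1)).map T.mor₁).hom (h1.2 (n + 1))
    rw [LinearMap.exact_iff.1 (exact_left T hT n (n + 1) rfl)] at h
    show (Module.finrank R ((H (n + 1)).obj T.obj₁) : ℤ) = _
    rw [← h]
    exact add_comm _ _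
  have e2 : ∀ n, rk T.obj₂ n = A n + B n := by
    intro n
    have h := finrank_add ((H n).map T.mor₂).hom (h2.2 n)
    rw [LinearMap.exact_iff.1 (exact_mid T hT n)] at h
    show (Module.finrank R ((H n).obj T.obj₂) : ℤ) = _
    rw [← h]
    exact add_comm _ _
  have e3 : ∀ n, rk T.obj₃ n = B n + E n := by
    intro n
    have h := finrank_add (HomologySequence.δ T n (n + 1) rfl).hom (h3.2 n)
    rw [LinearMap.exact_iff.1 (exact_right T hT n (n + 1) rfl)] at h
    show (Module.finrank R ((H n).obj T.obj₃) : ℤ) = _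
    rw [← h]
    exact add_comm _ _
  have zE : ∀ n, (n < a₃ ∨ b₃ < n) → E n = 0 := by
    intro n hn
    have h0 := rk_zero hb₃ hn
    have h4 := e3 n
    have h5 : 0 ≤ B n := Int.natCast_nonneg _
    have h6 : 0 ≤ E n := Int.natCast_nonneg _
    omega
  have sE := supp_fin E a₃ b₃ zE
  have s2 := supp_fin (rk T.obj₂) a₂ b₂ (fun n hn => rk_zero hb₂ hn)
  have s1 := supp_fin (rk T.obj₁) a₁ b₁ (fun n hn => rk_zero hb₁ hn)
  have s3 := supp_fin (rk T.obj₃) a₃ b₃ (fun n hn => rk_zero hb₃ hn)
  have sE' := supp_fin (fun n => E (n - 1)) (a₃ + 1) (b₃ + 1) (fun n hn => zE _ (by omega))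
  have t1 : (∑ᶠ n : ℤ, sg n * E (n - 1)) = - ∑ᶠ n : ℤ, sg n * E n := by
    rw [← finsum_comp_equiv (Equiv.addRight (1 : ℤ)), ← finsum_neg_distrib]
    apply finsum_congr
    intro n
    show sg (n + 1) * E (n + 1 - 1) = _
    rw [sg_succ, add_sub_cancel_right, neg_mul]
  have t2 : chi T.obj₁ + chi T.obj₃ = chi T.obj₂ + ((∑ᶠ n : ℤ, sg n * E (n - 1)) +
      ∑ᶠ n : ℤ, sg n * E n) := by
    unfold chi
    rw [← finsum_add_distrib s1 s3, ← finsum_add_distrib sE' sE]
    rw [← finsum_add_distrib s2 ((sE'.union sE).subset (Function.support_add _ _))]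
    apply finsum_congr
    intro n
    have h4 := e1 (n - 1)
    rw [sub_add_cancel] at h4
    rw [h4, e2, e3]
    ring
  rw [t2, t1]
  ring

theorem chi_conc {X : D R} {j : ℤ} (h : Bd j j X) : chi X = sg j * rk X j := by
  unfold chi
  rw [finsum_eq_single _ j]
  intro n hn
  rw [rk_zero h (by omega), mul_zero]

theorem rk_tors {X : D R} {n : ℤ} (h : Tors ((H n).obj X)) : rk X n = 0 := by
  unfold rk
  have : Module.rank R ((H n).obj X) = 0 := rank_eq_zero_iff.2 h
  rw [Module.finrank, this]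
  simp

theorem rk_pos {X : D R} {n : ℤ} (h : TF ((H n).obj X)) (h1 : FR ((H n).obj X))
    (h2 : ¬ Subsingleton ((H n).obj X)) : 0 < rk X n := by
  have h3 : Module.rank R ((H n).obj X) ≠ 0 := by
    intro h0
    rw [rank_eq_zero_iff] at h0
    apply h2
    refine ⟨fun x y => ?_⟩
    have h4 : ∀ x : (H n).obj X, x = 0 := fun x => by
      obtain ⟨a, ha, h5⟩ := h0 x
      rcases h a x h5 with h6 | h6
      · exact absurd h6 ha
      · exact h6
    rw [h4 x, h4 y]
  unfold rk
  have h4 : Module.finrank R ((H n).obj X) ≠ 0 := by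
    intro h0
    have := (Cardinal.toNat_eq_zero.1 h0)
    rcases this with h5 | h5
    · exact h3 h5
    · exact absurd h1 (not_lt.2 h5)
  omega

/-- the charge -/
def ZZ : (Fin 1 → ℤ) →+ ℂ where
  toFun x := (x 0 : ℂ) * Complex.I
  map_zero' := by simp
  map_add' x y := by simp [add_mul]

theorem exp_half (j : ℤ) : Complex.exp (Complex.I * Real.pi * ((1 / 2 - j : ℝ) : ℂ)) =
    (sg j : ℂ) * Complex.I := by
  have h1 : Complex.I * Real.pi * ((1 / 2 - j : ℝ) : ℂ) =
      Real.pi / 2 * Complex.I + ((-j : ℤ) : ℂ) * (Real.pi * Complex.I) := by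
    push_cast; ring
  rw [h1, Complex.exp_add, Complex.exp_pi_div_two_mul_I, Complex.exp_int_mul,
    Complex.exp_pi_mul_I]
  have h2 : ((-1 : ℂ)) ^ (-j) = (sg j : ℂ) := by
    rw [zpow_neg, ← inv_zpow]
    rcases Int.even_or_odd j with h | h
    · rw [show ((-1 : ℂ)⁻¹) = -1 by norm_num, h.neg_one_zpow]
      simp [sg, Int.negOnePow_even _ h]
    · rw [show ((-1 : ℂ)⁻¹) = -1 by norm_num, h.neg_one_zpow]
      simp [sg, Int.negOnePow_odd _ h]
  rw [h2]
  ring

variable (R) in
/-- the lax stability condition -/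
noncomputable def lax : LaxStability (CC R) 1 where
  toSlicing := slicing R
  v X := fun _ => chi X.obj
  v_add T hT := by
    funext i
    exact chi_add ((FB R).ι.mapTriangle.obj T) hT T.obj₁.2 T.obj₂.2 T.obj₃.2
  Z := ZZ
  phase φ X hX h0 := by
    rcases PD_conc hX with h | ⟨j, hj, hb⟩
    · exact absurd (isZero_C h) h0
    · show ∃ m : ℝ, 0 ≤ m ∧ (((chi X.obj : ℤ) : ℂ) * Complex.I) = _
      rw [chi_conc hb]
      rcases hj with hj | hj
      · refine ⟨0, le_refl _, ?_⟩
        rw [rk_tors ((hX j).tors hj)]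
        simp
      · refine ⟨rk X.obj j, ?_, ?_⟩
        · have : 0 ≤ rk X.obj j := Int.natCast_nonneg _
          exact_mod_cast this
        · rw [hj, exp_half]
          push_cast
          ring
  support := by
    refine ⟨1, one_pos, fun φ S _ _ => ?_⟩
    show ‖(fun _ : Fin 1 => chi S.obj.obj)‖ / 1 ≤ ‖(((chi S.obj.obj : ℤ) : ℂ) * Complex.I)‖
    rw [div_one, norm_mul, Complex.norm_I, mul_one, Pi.norm_def]
    simp [Int.norm_eq_abs]

theorem massive (X : CC R) (hX : PC (1 / 2) X) (h0 : ¬ IsZero X) :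
    (lax R).Z ((lax R).v X) ≠ 0 := by
  rcases PD_conc hX with h | ⟨j, hj, hb⟩
  · exact absurd (isZero_C h) h0
  · have hj0 : (1 / 2 : ℝ) = 1 / 2 - j := by
      rcases hj with hj | hj
      · exfalso
        have : (2 * j : ℝ) = 1 := by linarith
        have h3 : 2 * j = 1 := by exact_mod_cast this
        omega
      · exact hj
    show (((chi X.obj : ℤ) : ℂ) * Complex.I) ≠ 0
    rw [chi_conc hb]
    have hne : ¬ Subsingleton ((H j).obj X.obj) := by
      intro hs
      apply h0
      apply isZero_C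
      apply isZero_of_H
      intro n
      rcases eq_or_ne n j with rfl | hn
      · exact hs
      · exact hb n (by omega)
    have hp := rk_pos ((hX j).tf hj0) (X.2.2 j) hne
    have hs : sg j ≠ 0 := by
      unfold sg
      exact Units.ne_zero _
    apply mul_ne_zero _ Complex.I_ne_zero
    exact_mod_cast mul_ne_zero hs hp.ne'

end Pool.Agent.Q322.LX
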