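import Pool.Agent.Q322.LX.Coh
import Pool.Agent.Q322.LX.Defs

set_option autoImplicit false

/-!
# The triangulated category, Hom vanishing
-/

open CategoryTheory Limits DerivedCategory Pretriangulated
open scoped ZeroObject

set_option linter.unusedSectionVars false

namespace Pool.Agent.Q322.LX

attribute [local instance] HasDerivedCategory.standard

variable {R : Type} [CommRing R] [IsDomain R]

theorem FR.ext {M₁ M₂ M₃ : ModuleCat.{0} R} (f : M₁ →ₗ[R] M₂) (g : M₂ →ₗ[R] M₃)
    (hfg : Function.Exact f g) (h1 : FR M₁) (h3 : FR M₃) : FR M₂ := by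
  unfold FR at *
  rw [← LinearMap.rank_range_add_rank_ker g]
  apply Cardinal.add_lt_aleph0
  · exact lt_of_le_of_lt (Submodule.rank_le _) h3
  · have : LinearMap.ker g = LinearMap.range f := (LinearMap.exact_iff.1 hfg)
    rw [this]
    exact lt_of_le_of_lt (rank_range_le f) h1

theorem FR.of_subsingleton (M : ModuleCat.{0} R) [Subsingleton M] : FR M := by
  unfold FR
  rw [rank_subsingleton']
  exact Cardinal.aleph0_pos

variable (R) in
/-- objects all of whose cohomology modules have finite rank -/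
def FRo : ObjectProperty (D R) := fun X => ∀ n, FR ((H n).obj X)

instance : (FRo R).IsClosedUnderIsomorphisms where
  of_iso e h n := (h n).congr (Hiso e n)

instance : (FRo R).ContainsZero where
  exists_zero := ⟨0, isZero_zero _, fun n => by
    have := subsingleton_of_isZero (isZero_zero (D R)) n
    exact FR.of_subsingleton _⟩

instance : (FRo R).IsStableUnderShift ℤ where
  isStableUnderShiftBy a := ⟨fun X hX n => by
    obtain ⟨e⟩ := Hshift X a n (a + n) rfl
    exact (hX (a + n)).congr e.symm⟩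

instance : (FRo R).IsTriangulatedClosed₂ :=
  ObjectProperty.IsTriangulatedClosed₂.mk' fun T hT h1 h3 n =>
    FR.ext _ _ (exact_mid T hT n) (h1 n) (h3 n)

instance : (FRo R).IsTriangulated where

variable (R) in
/-- bounded objects with cohomology modules of finite rank -/
def FB : ObjectProperty (D R) := (TStructure.t : Triangulated.TStructure (D R)).bounded ⊓ FRo R

instance : (FB R).IsClosedUnderIsomorphisms := by unfold FB; infer_instance

instance : (FB R).IsTriangulated := by unfold FB; infer_instance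

variable (R) in
/-- the triangulated category -/
abbrev CC : Type 1 := (FB R).FullSubcategory

/-- the slices -/
def PC (φ : ℝ) : ObjectProperty (CC R) := fun X => PD φ X.obj

/-- the cohomology is concentrated in degrees in `[a, b]` -/
def Bd (a b : ℤ) (X : D R) : Prop := ∀ n, (n < a ∨ b < n) → Subsingleton ((H n).obj X)

theorem Bd.isLE {a b : ℤ} {X : D R} (h : Bd a b X) : X.IsLE b := by
  rw [isLE_iff]
  intro i hi
  have := h i (Or.inr hi)
  exact ModuleCat.isZero_of_subsingleton _

theorem Bd.isGE {a b : ℤ} {X : D R} (h : Bd a b X) : X.IsGE a := by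
  rw [isGE_iff]
  intro i hi
  have := h i (Or.inl hi)
  exact ModuleCat.isZero_of_subsingleton _

theorem Bd.of {a b : ℤ} {X : D R} (h1 : X.IsLE b) (h2 : X.IsGE a) : Bd a b X := by
  intro n hn
  rcases hn with hn | hn
  · exact ModuleCat.subsingleton_of_isZero (isZero_of_isGE X a n hn)
  · exact ModuleCat.subsingleton_of_isZero (isZero_of_isLE X b n hn)

theorem bounded_iff (X : D R) :
    (TStructure.t : Triangulated.TStructure (D R)).bounded X ↔ ∃ a b, Bd a b X := by
  constructor
  · rintro ⟨⟨a, ha⟩, ⟨b, hb⟩⟩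
    exact ⟨a, b, Bd.of hb ha⟩
  · rintro ⟨a, b, h⟩
    exact ⟨⟨a, h.isGE⟩, ⟨b, h.isLE⟩⟩

theorem isZero_of_H (X : D R) (h : ∀ n, Subsingleton ((H n).obj X)) : IsZero X := by
  have hb : Bd 1 0 X := fun n _ => h n
  have := hb.isLE
  have := hb.isGE
  exact (TStructure.t : Triangulated.TStructure (D R)).isZero X 0 1 (by norm_num)

/-- A nonzero object of a slice is concentrated in one degree. -/
theorem PD_conc {φ : ℝ} {X : D R} (h : PD φ X) :
    IsZero X ∨ ∃ j : ℤ, (φ = 1 - j ∨ φ = 1 / 2 - j) ∧ Bd j j X := by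
  by_cases h1 : ∃ j : ℤ, (φ = 1 - j ∨ φ = 1 / 2 - j)
  · obtain ⟨j, hj⟩ := h1
    right
    refine ⟨j, hj, fun n hn => ?_⟩
    have hne : n ≠ j := by omega
    apply (h n).zero
    · rintro rfl
      rcases hj with hj | hj
      · have : (n : ℝ) = j := by linarith
        exact hne (by exact_mod_cast this)
      · have : (2 * n : ℝ) = 2 * j + 1 := by linarith
        have h3 : 2 * n = 2 * j + 1 := by exact_mod_cast this
        omega
    · rintro rfl
      rcases hj with hj | hj
      · have : (2 * n + 1 : ℝ) = 2 * j := by linarith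
        have h3 : 2 * n + 1 = 2 * j := by exact_mod_cast this
        omega
      · have : (n : ℝ) = j := by linarith
        exact hne (by exact_mod_cast this)
  · left
    push Not at h1
    exact isZero_of_H X fun n => (h n).zero (h1 n).1 (h1 n).2

/-- the cohomology of an object in one degree -/
noncomputable def Hsingle (n : ℤ) (M : ModuleCat.{0} R) :
    (H n).obj ((singleFunctor (ModuleCat.{0} R) n).obj M) ≃ₗ[R] M :=
  ((singleFunctorCompHomologyFunctorIso (ModuleCat.{0} R) n).app M).toLinearEquiv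

theorem Hsingle_nat (n : ℤ) {M N : ModuleCat.{0} R} (f : M ⟶ N)
    (x : (H n).obj ((singleFunctor (ModuleCat.{0} R) n).obj M)) :
    Hsingle n N ((H n).map ((singleFunctor (ModuleCat.{0} R) n).map f) x) =
      f (Hsingle n M x) := by
  have := (singleFunctorCompHomologyFunctorIso (ModuleCat.{0} R) n).hom.naturality f
  exact congrArg (fun g => g.hom x) this

theorem hom_zero_D (φ₁ φ₂ : ℝ) (X Y : D R) (h : φ₂ < φ₁) (hX : PD φ₁ X) (hY : PD φ₂ Y)
    (f : X ⟶ Y) : f = 0 := by
  rcases PD_conc hX with h0 | ⟨j₁, hj₁, hb₁⟩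
  · exact h0.eq_of_src _ _
  rcases PD_conc hY with h0 | ⟨j₂, hj₂, hb₂⟩
  · exact h0.eq_of_tgt _ _
  have i1 := hb₁.isLE
  have i2 := hb₁.isGE
  have i3 := hb₂.isLE
  have i4 := hb₂.isGE
  have hle : j₁ ≤ j₂ := by
    by_contra hlt
    have h3 : (j₂ : ℝ) + 1 ≤ j₁ := by exact_mod_cast (not_le.1 hlt)
    rcases hj₁ with h4 | h4 <;> rcases hj₂ with h5 | h5 <;> linarith
  rcases hle.lt_or_eq with hlt | rfl
  · exact (TStructure.t : Triangulated.TStructure (D R)).zero f j₁ j₂ hlt
  · have e1 : φ₁ = 1 - j₁ := by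
      rcases hj₁ with h4 | h4
      · exact h4
      · rcases hj₂ with h5 | h5 <;> linarith
    have e2 : φ₂ = 1 / 2 - j₁ := by
      rcases hj₂ with h5 | h5
      · linarith
      · exact h5
    obtain ⟨M, ⟨eM⟩⟩ := exists_iso_singleFunctor_obj_of_isGE_of_isLE X j₁
    obtain ⟨N, ⟨eN⟩⟩ := exists_iso_singleFunctor_obj_of_isGE_of_isLE Y j₁
    have tM : Tors M := ((hX j₁).tors e1).congr ((Hiso eM j₁).trans (Hsingle j₁ M))
    have tN : TF N := ((hY j₁).tf e2).congr ((Hiso eN j₁).trans (Hsingle j₁ N))
    obtain ⟨g, hg⟩ := (singleFunctor (ModuleCat.{0} R) j₁).map_surjective (eM.inv ≫ f ≫ eN.hom)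
    have hg0 : g = 0 := by
      ext x
      obtain ⟨a, ha, h6⟩ := tM x
      have h7 : a • g x = 0 := by rw [← map_smul, h6, map_zero]
      rcases tN _ _ h7 with h8 | h8
      · exact absurd h8 ha
      · exact h8
    rw [hg0, Functor.map_zero] at hg
    have : f = eM.hom ≫ (eM.inv ≫ f ≫ eN.hom) ≫ eN.inv := by simp
    rw [this, ← hg]
    simp

end Pool.Agent.Q322.LX
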