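import Pool.Agent.Q322.LX.Jh

set_option autoImplicit false

/-!
# Torsion-free modules of finite rank
-/

open CategoryTheory Limits DerivedCategory Pretriangulated
open scoped ZeroObject

set_option linter.unusedSectionVars false

namespace Pool.Agent.Q322.LX

attribute [local instance] HasDerivedCategory.standard

variable {R : Type} [CommRing R] [IsDomain R]

variable (R) in
/-- torsion-free modules of finite rank -/
def TFM : ObjectProperty (ModuleCat.{0} R) := fun M => TF M ∧ FR M

variable (R) in
/-- the category of torsion-free modules of finite rank -/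
abbrev TC : Type 1 := (TFM R).FullSubcategory

theorem kc_of_ses {X Y Z : TC R} (f : X ⟶ Y) (g : Y ⟶ Z) (hf : Function.Injective f.hom.hom)
    (hg : Function.Surjective g.hom.hom) (hfg : Function.Exact f.hom.hom g.hom.hom) :
    KCPair f g := by
  refine ⟨?_, ?_, ?_⟩
  · apply (TFM R).ι.map_injective
    ext x
    exact (hfg _).2 ⟨x, rfl⟩
  · intro W k hk
    have hk' : ∀ w, g.hom.hom (k.hom.hom w) = 0 := fun w =>
      congrArg (fun h : W ⟶ Z => h.hom.hom w) hk
    have hr : ∀ w, k.hom.hom w ∈ LinearMap.range f.hom.hom := fun w => (hfg _).1 (hk' w)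
    let l : W.obj →ₗ[R] X.obj := (LinearEquiv.ofInjective f.hom.hom hf).symm.toLinearMap.comp
      (k.hom.hom.codRestrict (LinearMap.range f.hom.hom) hr)
    have hl : ∀ w, f.hom.hom (l w) = k.hom.hom w := fun w =>
      congrArg Subtype.val ((LinearEquiv.ofInjective f.hom.hom hf).apply_symm_apply ⟨_, hr w⟩)
    refine ⟨(TFM R).homMk (ModuleCat.ofHom l), ?_, ?_⟩
    · apply (TFM R).ι.map_injective
      ext w
      exact hl w
    · intro m hm
      apply (TFM R).ι.map_injective
      ext w
      apply hf
      show f.hom.hom (m.hom.hom w) = f.hom.hom (l w)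
      rw [hl]
      exact congrArg (fun h : W ⟶ Y => h.hom.hom w) hm
  · intro W k hk
    have hk' : LinearMap.ker g.hom.hom ≤ LinearMap.ker k.hom.hom := by
      intro y hy
      obtain ⟨x, rfl⟩ := (hfg y).1 hy
      exact congrArg (fun h : X ⟶ W => h.hom.hom x) hk
    let l : Z.obj →ₗ[R] W.obj := ((LinearMap.ker g.hom.hom).liftQ k.hom.hom hk').comp
      (LinearMap.quotKerEquivOfSurjective g.hom.hom hg).symm.toLinearMap
    have hl : ∀ y, l (g.hom.hom y) = k.hom.hom y := by
      intro y
      show ((LinearMap.ker g.hom.hom).liftQ k.hom.hom hk')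
        ((LinearMap.quotKerEquivOfSurjective g.hom.hom hg).symm (g.hom.hom y)) = _
      have : (LinearMap.quotKerEquivOfSurjective g.hom.hom hg).symm (g.hom.hom y) =
          Submodule.Quotient.mk y := by
        rw [LinearEquiv.symm_apply_eq]
        rfl
      rw [this]
      rfl
    refine ⟨(TFM R).homMk (ModuleCat.ofHom l), ?_, ?_⟩
    · apply (TFM R).ι.map_injective
      ext y
      exact hl y
    · intro m hm
      apply (TFM R).ι.map_injective
      ext z
      obtain ⟨y, rfl⟩ := hg z
      show m.hom.hom (g.hom.hom y) = l (g.hom.hom y)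
      rw [hl]
      exact congrArg (fun h : Y ⟶ W => h.hom.hom y) hm

theorem isZero_TC {X : TC R} (h : ∀ x : X.obj, x = 0) : IsZero X := by
  rw [IsZero.iff_id_eq_zero]
  apply (TFM R).ι.map_injective
  ext x
  exact h x

theorem of_isZero_TC {X : TC R} (h : IsZero X) (x : X.obj) : x = 0 := by
  rw [IsZero.iff_id_eq_zero] at h
  exact congrArg (fun k : X ⟶ X => k.hom.hom x) h

theorem FR_of_ring : FR (ModuleCat.of R R) := by
  show Module.rank R R < Cardinal.aleph0
  rw [Module.rank_self]
  exact Cardinal.one_lt_aleph0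

variable (R) in
/-- the ring as an object -/
def ringObj : TC R := ⟨ModuleCat.of R R, fun _ _ h => mul_eq_zero.1 h, FR_of_ring⟩

theorem simple_of_rank_one (S : TC R) (h0 : ∃ x : S.obj, x ≠ 0)
    (h1 : ∀ x y : S.obj, x ≠ 0 → ∃ a b : R, a ≠ 0 ∧ a • y = b • x) : SimpleObj S := by
  refine ⟨fun h => ?_, ?_⟩
  · obtain ⟨x, hx⟩ := h0
    exact hx (of_isZero_TC h x)
  · intro X Z f g hfg
    by_cases hX : ∀ x : X.obj, x = 0
    · exact Or.inl (isZero_TC hX)
    right
    push Not at hX
    obtain ⟨x, hx⟩ := hX
    have hfx : f.hom.hom x ≠ 0 := by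
      intro h2
      let r : ringObj R ⟶ X := (TFM R).homMk (ModuleCat.ofHom (LinearMap.toSpanSingleton R X.obj x))
      have h3 : r ≫ f = 0 := by
        apply (TFM R).ι.map_injective
        ext
        show f.hom.hom ((1 : R) • x) = 0
        rw [one_smul, h2]
      obtain ⟨l, _, hu⟩ := hfg.2.1 (ringObj R) 0 zero_comp
      have h4 : r = 0 := (hu r h3).trans (hu 0 zero_comp).symm
      have h5 : (1 : R) • x = 0 := congrArg (fun k : ringObj R ⟶ X => k.hom.hom (1 : R)) h4
      rw [one_smul] at h5
      exact hx h5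
    have hg : g = 0 := by
      apply (TFM R).ι.map_injective
      ext y
      obtain ⟨a, b, ha, hab⟩ := h1 _ y hfx
      have h6 : g.hom.hom (f.hom.hom x) = 0 :=
        congrArg (fun k : X ⟶ Z => k.hom.hom x) hfg.1
      have h7 : a • g.hom.hom y = 0 := by
        rw [← map_smul, hab, map_smul, h6, smul_zero]
      rcases Z.2.1 _ _ h7 with h8 | h8
      · exact absurd h8 ha
      · exact h8
    rw [IsZero.iff_id_eq_zero]
    obtain ⟨l, _, hu⟩ := hfg.2.2 Z 0 comp_zero
    exact (hu (𝟙 Z) (by show g ≫ 𝟙 Z = 0; rw [hg, zero_comp])).trans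
      (hu 0 (by show g ≫ 0 = 0; rw [comp_zero])).symm

theorem compSeries_simple {A : Type 1} [Category.{0} A] [HasZeroMorphisms A] (Z S : A)
    (hZ : IsZero Z) (hS : SimpleObj S) : CompSeries S [S] := by
  refine CompSeries.step Z S S [] 0 (𝟙 S) ⟨by simp, ?_, ?_⟩ hS (CompSeries.zero Z hZ)
  · intro W k hk
    rw [Category.comp_id] at hk
    exact ⟨0, by show 0 ≫ 0 = k; rw [zero_comp, hk], fun m _ => hZ.eq_of_tgt _ _⟩
  · intro W k _
    exact ⟨k, by show 𝟙 S ≫ k = k; rw [Category.id_comp], fun m hm => by
      rw [← hm]; exact (Category.id_comp m).symm⟩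

/-! ### The functor to the slice -/

theorem TFM_FB (M : TC R) : FB R ((singleFunctor (ModuleCat.{0} R) 0).obj M.obj) := by
  have hb : Bd 0 0 ((singleFunctor (ModuleCat.{0} R) 0).obj M.obj) :=
    Bd.of inferInstance inferInstance
  refine FB_of hb fun n => ?_
  rcases eq_or_ne n 0 with rfl | hn
  · exact M.2.2.congr (Hsingle 0 M.obj).symm
  · exact FR.of_sub (hb n (by omega))

theorem TFM_PD (M : TC R) : PD (1 / 2) ((singleFunctor (ModuleCat.{0} R) 0).obj M.obj) := by
  have hb : Bd 0 0 ((singleFunctor (ModuleCat.{0} R) 0).obj M.obj) :=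
    Bd.of inferInstance inferInstance
  intro n
  rcases eq_or_ne n 0 with rfl | hn
  · refine ⟨fun h => ?_, fun _ => M.2.1.congr (Hsingle 0 M.obj).symm, fun _ h => ?_⟩
    · exfalso; push_cast at h; linarith
    · exfalso; apply h; push_cast; ring
  · have := hb n (by omega)
    exact Cls.of_subsingleton _ _ _

variable (R) in
/-- the functor to the triangulated category -/
noncomputable def G1 : TC R ⥤ CC R :=
  (FB R).lift ((TFM R).ι ⋙ singleFunctor (ModuleCat.{0} R) 0) TFM_FB

variable (R) in
/-- the functor to the slice -/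
noncomputable def G : TC R ⥤ (PC (R := R) (1 / 2)).FullSubcategory :=
  (PC (R := R) (1 / 2)).lift (G1 R) TFM_PD

instance : (G1 R).Full := by unfold G1; infer_instance
instance : (G1 R).Faithful := by unfold G1; infer_instance
instance : (G R).Full := by unfold G; infer_instance
instance : (G R).Faithful := by unfold G; infer_instance

instance : (G R).PreservesZeroMorphisms where
  map_zero X Y := by
    apply (PC (R := R) (1 / 2)).ι.map_injective
    apply (FB R).ι.map_injective
    exact (singleFunctor (ModuleCat.{0} R) 0).map_zero _ _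

instance : (G R).EssSurj where
  mem_essImage X := by
    have hb : Bd 0 0 X.obj.obj := by
      rcases PD_conc X.2 with h | ⟨j, hj, hb⟩
      · intro n _
        exact subsingleton_of_isZero h n
      · have : j = 0 := by
          rcases hj with hj | hj
          · exfalso
            have : (2 * j : ℝ) = 1 := by linarith
            have h3 : 2 * j = 1 := by exact_mod_cast this
            omega
          · have : (j : ℝ) = 0 := by linarith
            exact_mod_cast this
        rwa [this] at hb
    have i1 := hb.isLE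
    have i2 := hb.isGE
    obtain ⟨M, ⟨eM⟩⟩ := exists_iso_singleFunctor_obj_of_isGE_of_isLE X.obj.obj 0
    have h1 : TF M := ((X.2 0).tf (by push_cast; ring)).congr ((Hiso eM 0).trans (Hsingle 0 M))
    have h2 : FR M := (X.obj.2.2 0).congr ((Hiso eM 0).trans (Hsingle 0 M))
    refine ⟨⟨M, h1, h2⟩, ⟨?_⟩⟩
    exact (PC (R := R) (1 / 2)).fullyFaithfulι.preimageIso
      ((FB R).fullyFaithfulι.preimageIso eM.symm)

end Pool.Agent.Q322.LX
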